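import Pool.Agent.Helper26.PE.Beta

/-!
# PE-Fin1, part (a): the primes `q ≤ S ^ 2`
-/

set_option autoImplicit false

namespace Pool.Agent.Helper26.PE

open Finset

variable {p : ℕ} [hp : Fact p.Prime]

theorem small_bad {S : ℕ} (hS : 3 ≤ S) (hp8 : S ^ 8 ≤ p) (H : Subgroup (ZMod p)ˣ) (hH : Stab H)
    (hcard : S ^ 40 ≤ Nat.card H) {q : ℕ} (hq : q.Prime) (hqS : q ≤ S ^ 2) :
    (#(Bd p q) : ℝ) ≤ 36 * p / (S : ℝ) ^ 16 := by
  have hS0 : (0 : ℝ) < S := by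
    have : 0 < S := by omega
    exact_mod_cast this
  have hS1 : (1 : ℝ) ≤ S := by
    have : 1 ≤ S := by omega
    exact_mod_cast this
  have hq0 : 0 < q := hq.pos
  -- p is large
  have h81 : 4 * S ^ 2 + 2 ≤ p := by
    refine le_trans ?_ hp8
    have h1 : 9 ≤ S ^ 2 := by nlinarith
    have h2 : S ^ 8 = S ^ 2 * (S ^ 2) ^ 3 := by ring
    have h3 : 9 ^ 3 ≤ (S ^ 2) ^ 3 := Nat.pow_le_pow_left h1 3
    rw [h2]
    nlinarith
  have hpq : 4 * q + 2 ≤ p := by omega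
  obtain ⟨M, hM⟩ : ∃ M, M = (p - 1) / (2 * q) := ⟨_, rfl⟩
  have hM1 : 2 * q * M ≤ p - 1 := by
    rw [hM]
    exact Nat.mul_div_le _ _
  have hM2 : 2 * q * M < p := by omega
  have hM3 : p - 1 < 2 * q * (M + 1) := by
    rw [hM]
    exact Nat.lt_mul_div_succ _ (by omega)
  have hM4 : 2 * (p - 1) < 4 * q * M + 4 * q := by
    have : 2 * (2 * q * (M + 1)) = 4 * q * M + 4 * q := by ring
    omega
  have hM5 : p ≤ 4 * q * M := by omega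
  have hM0 : 0 < M := by
    rcases Nat.eq_zero_or_pos M with h | h
    · rw [h] at hM5
      omega
    · exact h
  have hb := bad_card H hH hq hM0 hM2 (L := S ^ 11) (by positivity)
  have hp0 : (0 : ℝ) ≤ p := Nat.cast_nonneg _
  have hM0' : (0 : ℝ) < M := by exact_mod_cast hM0
  have hc : (S : ℝ) ^ 40 ≤ Nat.card H := by exact_mod_cast hcard
  have e1 : 4 * ((S ^ 11 : ℕ) : ℝ) ^ 2 / Nat.card H ≤ 4 / (S : ℝ) ^ 16 := by
    rw [div_le_div_iff₀ (lt_of_lt_of_le (by positivity) hc) (by positivity)]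
    push_cast
    have h1 : 4 * ((S : ℝ) ^ 11) ^ 2 * (S : ℝ) ^ 16 = 4 * (S : ℝ) ^ 38 := by ring
    have h2 : (S : ℝ) ^ 38 ≤ (S : ℝ) ^ 40 := pow_le_pow_right₀ hS1 (by norm_num)
    rw [h1]
    linarith
  have e2 : (p : ℝ) ^ 3 / (2 * (M : ℝ) ^ 3 * ((S ^ 11 : ℕ) : ℝ) ^ 2) ≤ 32 / (S : ℝ) ^ 16 := by
    rw [div_le_div_iff₀ (by positivity) (by positivity)]
    push_cast
    have h1 : (p : ℝ) ≤ 4 * q * M := by exact_mod_cast hM5
    have h2 : (q : ℝ) ≤ (S : ℝ) ^ 2 := by exact_mod_cast hqS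
    have h3 : (p : ℝ) ≤ 4 * (S : ℝ) ^ 2 * M := h1.trans (by gcongr)
    have h4 : (p : ℝ) ^ 3 ≤ (4 * (S : ℝ) ^ 2 * M) ^ 3 := pow_le_pow_left₀ hp0 h3 3
    calc (p : ℝ) ^ 3 * (S : ℝ) ^ 16 ≤ (4 * (S : ℝ) ^ 2 * M) ^ 3 * (S : ℝ) ^ 16 := by gcongr
      _ = 32 * (2 * (M : ℝ) ^ 3 * ((S : ℝ) ^ 11) ^ 2) := by ring
  calc (#(Bd p q) : ℝ) ≤ _ := hb
    _ ≤ p * (4 / (S : ℝ) ^ 16 + 32 / (S : ℝ) ^ 16) := by gcongr
    _ = 36 * p / (S : ℝ) ^ 16 := by ring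

/-- the primes up to `S ^ 2` contribute at most `36 / S ^ 14` -/
theorem small_sum {S : ℕ} (hS : 3 ≤ S) (hp8 : S ^ 8 ≤ p) (H : Subgroup (ZMod p)ˣ) (hH : Stab H)
    (hcard : S ^ 40 ≤ Nat.card H) :
    ∑ q ∈ (Icc 1 (S ^ 2)).filter Nat.Prime, dl p q / q ≤ 36 / (S : ℝ) ^ 14 := by
  have hS0 : (0 : ℝ) < S := by
    have : 0 < S := by omega
    exact_mod_cast this
  have hp0 : (0 : ℝ) < p := by exact_mod_cast hp.out.pos
  have h1 : ∀ q ∈ (Icc 1 (S ^ 2)).filter Nat.Prime, dl p q / q ≤ 36 / (S : ℝ) ^ 16 := by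
    intro q hq
    rw [mem_filter, mem_Icc] at hq
    have h2 := small_bad hS hp8 H hH hcard hq.2 hq.1.2
    have hq1 : (1 : ℝ) ≤ q := by exact_mod_cast hq.1.1
    have h3 : dl p q ≤ 36 / (S : ℝ) ^ 16 := by
      unfold dl
      rw [div_le_iff₀ hp0]
      calc (#(Bd p q) : ℝ) ≤ 36 * p / (S : ℝ) ^ 16 := h2
        _ = 36 / (S : ℝ) ^ 16 * p := by ring
    have h4 : 0 ≤ dl p q := by
      unfold dl
      positivity
    exact (div_le_self h4 hq1).trans h3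
  have h2 : (#((Icc 1 (S ^ 2)).filter Nat.Prime) : ℝ) ≤ (S : ℝ) ^ 2 := by
    have h3 : #((Icc 1 (S ^ 2)).filter Nat.Prime) ≤ S ^ 2 := by
      refine (card_filter_le _ _).trans ?_
      simp
    exact_mod_cast h3
  calc ∑ q ∈ (Icc 1 (S ^ 2)).filter Nat.Prime, dl p q / q
      ≤ ∑ _q ∈ (Icc 1 (S ^ 2)).filter Nat.Prime, 36 / (S : ℝ) ^ 16 := sum_le_sum h1
    _ = #((Icc 1 (S ^ 2)).filter Nat.Prime) * (36 / (S : ℝ) ^ 16) := by
        rw [sum_const, nsmul_eq_mul]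
    _ ≤ (S : ℝ) ^ 2 * (36 / (S : ℝ) ^ 16) := by gcongr
    _ = 36 / (S : ℝ) ^ 14 := by
        field_simp

end Pool.Agent.Helper26.PE
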